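import Pool.Agent.H173R2.HWE

/-!
# The Hoffman-Wielandt inequality holds in the Schatten 4-norm

For all normal matrices `A, B` of every size with eigenvalues `α` and `β` there is a permutation
`σ` with `∑ |α i - β (σ i)| ^ 4 ≤ ‖A - B‖₄ ^ 4`.  So `p = 2` is not the only exponent for which the
inequality `(HW_p)` holds.

Idea.  Let `A` be diagonal and let `B = U diag(β) U*` with a unitary `U` for which
`‖A - B‖₄ ^ 4 + 2 ε ‖A - B‖₂ ^ 2` is smallest.  Write `S = A - B` and `[A*, B] = H + G` with `H`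
Hermitian and `G` anti-Hermitian.  Then
`‖S‖₄ ^ 4 = ∑ |U i j| ^ 2 |α i - β j| ^ 4 + ‖H‖₂ ^ 2 - ‖G‖₂ ^ 2`, and the equation for a critical
point is the Lyapunov equation `2 {G, Z + ε / 2} = S N* S - S* N S*` (up to a sign) with
`N = [A, B]`, `2 Z = S S* + S* S`.  It implies `2 ‖G‖₂ ^ 2 ≤ ‖N‖₂ ^ 2 = ‖G‖₂ ^ 2 + ‖H‖₂ ^ 2`.  So
`‖S‖₄ ^ 4 ≥ ∑ |U i j| ^ 2 |α i - β j| ^ 4`, and Birkhoff's theorem gives the permutation.
-/

set_option autoImplicit false

namespace Pool.Agent.Results.MP_d71970_an.SchattenFour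

/-- The Schatten `p`-norm: the `ℓ^p` norm of the singular values of `X`, the square roots of the
eigenvalues of `X* X`. -/
noncomputable def schatten {n : ℕ} (p : ℝ) (X : Matrix (Fin n) (Fin n) ℂ) : ℝ :=
  (∑ i, Real.sqrt ((Matrix.isHermitian_conjTranspose_mul_self X).eigenvalues i) ^ p) ^ (1 / p)

/-- The inequality `(HW_p)`: for all normal matrices `A, B` of every size, if `α` and `β` list the
eigenvalues of `A` and of `B` with multiplicities (the roots of the characteristic polynomials),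
then the `ℓ^p` norm of `α - β ∘ σ` is at most the Schatten `p`-norm of `A - B` for some
permutation `σ`. -/
def HW (p : ℝ) : Prop :=
  ∀ (n : ℕ) (A B : Matrix (Fin n) (Fin n) ℂ) (α β : Fin n → ℂ),
    IsStarNormal A → IsStarNormal B →
    A.charpoly = ∏ i, (Polynomial.X - Polynomial.C (α i)) →
    B.charpoly = ∏ i, (Polynomial.X - Polynomial.C (β i)) →
    ∃ σ : Equiv.Perm (Fin n), (∑ i, ‖α i - β (σ i)‖ ^ p) ^ (1 / p) ≤ schatten p (A - B)

/-- **Theorem.** The inequality `(HW_p)` holds for `p = 4`. -/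
theorem result : HW 4 := by
  intro n A B α β hA hB hα hβ
  have hA' : A.conjTranspose * A = A * A.conjTranspose := hA.star_comm_self.eq
  have hB' : B.conjTranspose * B = B * B.conjTranspose := hB.star_comm_self.eq
  obtain ⟨σ, hσ⟩ := Pool.Agent.H173R2.HW.main_normal A B hA' hB' α β hα hβ
  refine ⟨σ, ?_⟩
  have h1 : (∑ i, Real.sqrt
      ((Matrix.isHermitian_conjTranspose_mul_self (A - B)).eigenvalues i) ^ (4 : ℝ)) =
      Pool.Agent.H173R2.HW.sq ((A - B).conjTranspose * (A - B)) :=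
    Pool.Agent.H173R2.HW.sum_singular (A - B)
  have h2 : (∑ i, ‖α i - β (σ i)‖ ^ (4 : ℝ)) = ∑ i, ‖α i - β (σ i)‖ ^ 4 := by
    refine Finset.sum_congr rfl fun i _ => ?_
    rw [show (4 : ℝ) = ((4 : ℕ) : ℝ) by norm_num, Real.rpow_natCast]
  unfold schatten
  rw [h1, h2]
  exact Real.rpow_le_rpow (Finset.sum_nonneg fun i _ => by positivity) hσ (by norm_num)

end Pool.Agent.Results.MP_d71970_an.SchattenFour
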